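import Pool.Agent.H40.JsRay

set_option autoImplicit false

namespace Pool.Agent.Results.MP_053343_lc.NotDiscrete

open Set Filter OnePoint Topology
open Pool.Agent.H40.Bspt Pool.Agent.H40.Jz Pool.Agent.H40.Js Pool.Agent.H40.Js.Ray

variable {M : Type} {E : M → M → Prop}

/-- every singleton is the intersection of countably many open sets -/
def CtblPsi (E : M → M → Prop) (X T : M) : Prop :=
  ∀ x, E x X → ∃ C, Sub E C T ∧ Ctbl E C ∧ ∀ y, E y X → ((∀ U, E U C → E y U) ↔ y = x)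

/-- `U` is open in the zero set topology -/
def ZOpen (ℛ : Reals E) (X T U : M) : Prop :=
  Sub E U X ∧ ∀ x, E x U → ∃ Z, ZeroSet ℛ X T Z ∧ E x Z ∧ Sub E Z U

theorem psi (J : JS G A) (x : A) (σ : ℕ → PS G A) (h1 : ∀ᶠ g in NF.F (Γ := G), ∀ n, g • σ n = σ n)
    (h2 : ∀ n, IsOpen (σ n).1) (h3 : ∀ y, (∀ n, y ∈ (σ n).1) ↔ y = x) :
    ∃ C, Sub J.E C J.T ∧ Ctbl J.E C ∧ ∀ y, J.E y (J.sA unA) →
      ((∀ U, J.E U C → J.E y U) ↔ y = J.nA x) := by
  obtain ⟨C, h4, h5, h6⟩ := J.ctblS h1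
  exact ⟨C, h6 _ fun n => J.memT.2 (h2 n), h4, J.allA.2 fun y _ =>
    ⟨fun h => congrArg _ ((h3 y).1 fun n => J.memA.1 (h _ (h5 n))),
      fun h => h6 _ fun n => J.memA.2 ((h3 y).2 (J.nA_inj h) n)⟩⟩

theorem result : ∃ (M : Type) (E : M → M → Prop), IsZF E ∧ ∃ (ℛ : Reals E) (X T : M),
    IsTop E X T ∧ Tychonoff ℛ X T ∧ CtblPsi E X T ∧ ∃ U, Sub E U X ∧ ¬ ZOpen ℛ X T U := by
  obtain ⟨J⟩ := ex_js fx
  refine ⟨J.M, J.E, J.zf, J.reals, J.sA unA, J.T, J.isTop, J.tych sb _, J.allA.2 fun x _ => ?_,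
    J.sA ⟨_, sym_compl X.2⟩, J.subA_iff.2 (subset_univ _), fun h => ?_⟩
  · by_cases hx : x = ∞
    · refine psi J x (fun n => ⟨_, sym_compl (Ks n).2⟩) (Eventually.of_forall fun g n =>
        smul_eq fun _ => not_congr (gK g)) (fun n => (K_closed n).isOpen_compl) fun y => ?_
      rw [hx]
      exact ⟨fun h => by_contra fun e => (exL e).elim fun n hn => h _ (LK n.lt_succ_self hn),
        fun e n => e ▸ iK⟩
    · obtain ⟨n, hn⟩ := exL hx
      obtain ⟨e, he⟩ := exists_surjective_nat A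
      have h : ∀ k, L n \ ({e k} \ {x}) ⊆ K (n + 1) := fun k =>
        sdiff_subset.trans (LK n.lt_succ_self)
      refine psi J x (fun k => ⟨_, symK (h k)⟩) ((fixK _).mono fun g hg k =>
        smul_eq (invK hg (h k))) (fun k => (L_clopen n).2.sdiff
          ((finite_singleton _).subset sdiff_subset).isClosed) fun y => ⟨fun h => ?_, ?_⟩
      · obtain ⟨k, rfl⟩ := he y
        exact not_not.1 fun e => (h k).2 ⟨rfl, e⟩
      · rintro rfl k
        exact ⟨hn, fun e => e.2 rfl⟩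
  · obtain ⟨Z, h1, h2, h3⟩ := h.2 (J.nA ∞) (J.memA.2 fun e => e rfl)
    obtain ⟨z, f, rfl, h4, h5, -, h6⟩ := J.zero_el sb h1
    obtain ⟨N, hN⟩ := ev_el h5
    have h7 : f ∞ = f (p N) := tendsto_nhds_unique
      (((continuousOn_univ.1 h4).tendsto _).comp p_lim) (tendsto_const_nhds.congr'
        ((eventually_ge_atTop N).mono fun n hn => (step (h4.mono (subset_univ _))
          (fun g hg x _ => hN g hg x trivial) n hn).symm))
    exact J.subA_iff.1 h3 ((h6 _ trivial).2 (h7.symm.trans ((h6 _ trivial).1 (J.memA.1 h2))))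
      (p_ne N)

end Pool.Agent.Results.MP_053343_lc.NotDiscrete
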